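import Pool.Agent.X312.FK.Rk

/-!
# A gap law for Murre's conjectures (B) and (D) for the motives `N ⊗ h(X ^ n)`

Let `k` be any field and `N` **any** Chow motive over `k` with a Chow-Künneth decomposition. Let
`X` be a smooth projective variety with a Chow-Künneth decomposition such that the numerically
trivial self-correspondences of its powers are nilpotent modulo rational equivalence, and
homological and numerical equivalence agree on its powers (for example an abelian variety or a
product of curves over a field of characteristic `0`). The motives `N ⊗ h(X ^ n)` have the product
decompositions. Let `M` be a direct summand of the Chow motive of `X ^ m`, cut out by a projector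
which commutes with the Chow-Künneth projectors, such that `M` is irreducible modulo homological
equivalence; let `D = dim H(M)` be its rank. Let `ρ(Z)` be the rank of the cycles of all
codimensions on `Z` modulo numerical equivalence, and `b` the sum of the Betti numbers of `X`. Let

`S(Z) = ⊕_l ⊕_(i ≤ 2 l) CH_l((N ⊗ h(Z))_i)`,

`Z` a power of `X`, and let `c` be the cycle class map to `H(N ⊗ h(Z))`. The conjectures (B) and
(D) of Q1 for the decomposition of `N ⊗ h(X ^ m)` say that `c` is injective on `S(X ^ m)`: the
parts with `i < 2 l` vanish and there are no homologically trivial cycles for `i = 2 l`. Then `c`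
**is injective on** `S(M)`, that is (B) and (D) hold for `N ⊗ M`, **or for all** `n ≥ 1` the
dimension of the kernel of `c` on `S(X ^ n)` is at least

`(D - 4 (m + 3) b ^ (m + 5) log (n + 1) / n) ρ(X ^ n)`.

So, if (B) or (D) is false for one of the motives `N ⊗ h(X ^ m)` then this is true for all `N ⊗
h(X ^ n)` with large `n`, and the space of the cycles which violate (B) or (D) is very large.

The proof. A correspondence `a` of degree `r` between powers of `X` is graded if it maps `h^i` to
`h^(i + 2 r)` for all `i`. The graded correspondences form a category, every algebraic cohomology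
class of correspondences is the class of a graded one (compress with the projectors), and they act
on the kernel of `c` on `S(Z)`. Let `e` be the projector of `M`, `P = X ^ m`, and let `z = e z ≠
0` be an element of this space for `P`. If `x` is a graded correspondence with `x z = 0` then `e x
e` is nilpotent, as otherwise some multiple of it would be an idempotent, equal to `e` by
irreducibility and by the lifting of idempotents, and would not kill `z`. So the trace of `e x`
vanishes, and the dimension for `Z` is at least the rank of the trace form `(u, v) ↦ tr (e v u)`
on the correspondences between `P` and `Z`. For `Z = X ^ n` this rank is at least `(D - ε) ρ(X ^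
n)`, by the log-convexity of the sequence of the ranks `ρ(X ^ (2 l))`, by tensor powers, and by
the symmetric group, which excludes small growth. For the other parity `M` is cut out of `X ^ (m +
1)`.
-/

set_option autoImplicit false

open CategoryTheory AlgebraicGeometry

universe u v w

namespace Pool.Agent.Results.MP_38de51_ag.KernelGapLaw

open Pool.Agent.H914 VarClass Obj WeilCohomology
open Pool.Agent.X312.FK (ChowData ChowModule IsRegulator IsAlgClass IrreducibleIn RankGE IndepMod)
open Pool.Agent.X312.FC (rankBound)
open Pool.Agent.Y133.Half (cycRank pw)

variable {k : Type u} [Field k] {𝒱 : VarClass k} {ops : CycleOps 𝒱}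
  {W : WeilCohomology.{u, v} ops}

/-- The sum of the Betti numbers of `X`. -/
noncomputable def totalBetti (W : WeilCohomology.{u, v} ops) (X : 𝒱.Obj) : ℕ :=
  Module.finrank W.K (W.H X)

/-- **The gap law for kernels and irreducible motives.** In the intended use `𝒱` is the class of the
powers of `X`, `C.A Z Z'` is the space of the cycles on `Z × Z'` modulo rational equivalence which are
graded for the Chow-Künneth decompositions, `S.M Z` is the sum of the spaces
`CH_l((N ⊗ h(Z))_i)` with `i ≤ 2 l`, `c Z` is the cycle class map to `T.M Z = H(N ⊗ h(Z))`, and `e` is the
projector of the motive `M`. Here `pw X m` is the product of `m + 1` copies of `X`. -/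
theorem result (C : ChowData W) (hC : C.IsChow) (S T : ChowModule C) (hS : S.IsFunctor)
    (hT : T.IsFunctor) (c : ∀ Z : 𝒱.Obj, S.M Z → T.M Z) (hc : IsRegulator S T c)
    (X : 𝒱.Obj) (hX : ∀ n : ℕ, C.NumNil (pw X n)) (hD : ∀ n : ℕ, HomEqNum W (pw X n))
    (m : ℕ) (e : C.A (pw X m) (pw X m)) (he : C.comp e e = e)
    (hirr : IrreducibleIn IsAlgClass (C.cl e)) (D : ℕ) (hrk : RankGE (C.cl e) D) :
    (∀ x : S.M (pw X m), c _ x = 0 → S.act e x = 0) ∨
    ∀ n : ℕ, IndepMod {x : S.M (pw X n) | c _ x = 0} (⊥ : Submodule W.K (S.M (pw X n)))
      (rankBound D (totalBetti W X) (cycRank ops (pw X n)) m n) :=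
  Pool.Agent.X312.FK.rk_ker hC hS hT hc X hX hD e he hirr hrk

end Pool.Agent.Results.MP_38de51_ag.KernelGapLaw
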