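import Pool.Agent.X308.S.CK

/-!
# Murre's conjectures (A), (B), (D) for direct summands of sums of twisted motives of surfaces

`𝒱` is a class of smooth projective geometrically irreducible varieties over the field `k` closed
under products (for example all of them), `C` the Chow groups with rational coefficients (in the
form of their formal properties, `IsChowProj`), `H` a Weil cohomology theory (`IsWeilProj`), and
`SurfaceProperties H` records two known facts: homologically trivial divisors on a product `X × Y`
are sums of pull-backs of divisors from `X` and from `Y` (with rational coefficients), and every
surface has a Chow-Kunneth decomposition as constructed by Murre.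

Let `M = (X, p, n)` be a motive, with `X` of any dimension, which is a direct summand of a finite sum
of twists of motives of surfaces: this means that the idempotent `p` is a sum of compositions
`X → S_s → X` of correspondences through surfaces `S_s` (`throughSurfaces`). Motives of curves are
included, since `h(T)` is a direct summand of `h(T × T)`.

Theorem. `M` has a Chow-Kunneth decomposition `M = ⊕ M_i` with `CH_l(M_i) = 0` for `i < 2 l`, and
`CH_l(M_(2 l))_hom = 0` for all `l`: Murre's conjectures (A), (B), (D) hold for `M`.

The direct summand `M` need not be compatible with the decompositions of the surfaces, and no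
finite-dimensionality or nilpotence hypothesis is made. Steps of the proof. Let `I_w` be the ideal of
the self-correspondences of degree zero of `X` which factor through the parts of weight `w` of
twisted motives of surfaces. (1) `I_w' ∘ I_w = 0` for `w < w'`: this amounts to the vanishing of the
correspondences of arbitrary degree from `h^i(S)` to `h^j(S')` which raise the weight, which is
reduced to homologically trivial divisors on products by factoring `h^1` and `h^3` through curves.
(2) The idempotent `p` is a sum of elements `E_w` of the `I_w`; by triangularity `p ∘ E_w ∘ p` is
idempotent for the largest weight `w`, and inductively `p` is the sum of orthogonal idempotents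
`q_w ∈ I_w`. (3) Elements of `I_w` act as zero on `H^m(X)` for `m ≠ w`, on `CH^l(X)` for `w > 2 l`,
and on the homologically trivial classes in `CH^l(X)` for `w = 2 l`.
-/

set_option autoImplicit false

open CategoryTheory AlgebraicGeometry

universe u v w

namespace Pool.Agent.Results.MP_38de51_ag.SummandsOfSurfaces

open Pool.Agent.H914 Pool.Agent.W492.BB Pool.Agent.TH133 Pool.Agent.X308.S

/-- Murre's conjectures (A), (B), (D) hold for every motive `(X, p, n)` which is a direct summand of
a finite sum of twists of motives of surfaces. -/
theorem result {k : Type u} [Field k] {𝒱 : VarClass k} (C : TheoryData.{u, v, 0} 𝒱 ℚ)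
    [IsChowProj C] {K : Type w} [Field K] (H : WeilTheoryData.{u, v, w} C K) [IsWeilProj H]
    (hS : SurfaceProperties H) (X : 𝒱.Obj) (p : C.A (X.prod X)) (n : ℤ)
    (hp : C.comp p p = p) (hpS : p ∈ throughSurfaces C X) :
    ∃ π : ℤ → C.A (X.prod X), IsMotiveCK H p n π ∧ MotiveB C n π ∧ MotiveD H n π :=
  murre_motive hS hp hpS n

end Pool.Agent.Results.MP_38de51_ag.SummandsOfSurfaces
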